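import Pool.Agent.Helper86.Ac.Goals

/-! Packet SUM: the integer sum of the search is `KT`. -/

namespace Pool.Agent.Helper17.Ac

open Pool.Agent.Helper86.Ac Pool.Agent.Helper86.Acute

/-- the flag with two marked points -/
noncomputable def ph {α : Type} (S : α → α → α → St) (p q a b : α) : F := (pt S p q a b).f01

/-- the flag with four marked points -/
noncomputable def gg {α : Type} (S : α → α → α → St) (a b c d u : α) : F :=
  (cd S a b c d u).leaf.g4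

section

variable {n : ℕ} {S : Fin n → Fin n → Fin n → St}

theorem e01 (i j k l : Fin n) : (pt S i j k l).f01 = ph S i j k l := rfl

theorem e02 (hP : PayStmt) (hS : Adm S) (i j k l : Fin n) :
    (pt S i j k l).f02 = ph S i k j l := by
  have h := (hP (S i j k) (S i j l) (S i k l) (S j k l)).2.1
  unfold ph pt
  rw [h, hS.h23 i j k, hS.h12 j k l]

theorem e12 (hP : PayStmt) (hS : Adm S) (i j k l : Fin n) :
    (pt S i j k l).f12 = ph S j k i l := by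
  have h := (hP (S i j k) (S i j l) (S i k l) (S j k l)).2.2.1
  unfold ph pt
  rw [h, hS.h23 j i k, hS.h12 i j k, hS.h12 i j l, hS.h12 i k l]

theorem e03 (hP : PayStmt) (hS : Adm S) (i j k l : Fin n) :
    (pt S i j k l).f03 = ph S i l j k := by
  have h := (hP (S i j k) (S i j l) (S i k l) (S j k l)).2.2.2.1
  unfold ph pt
  rw [h, hS.h23 i j l, hS.h23 i k l, hS.h12 j l k, hS.h23 j k l]

theorem e13 (hP : PayStmt) (hS : Adm S) (i j k l : Fin n) :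
    (pt S i j k l).f13 = ph S j l i k := by
  have h := (hP (S i j k) (S i j l) (S i k l) (S j k l)).2.2.2.2.1
  unfold ph pt
  rw [h, hS.h23 j i l, hS.h12 i j l, hS.h23 j k l, hS.h12 i j k, hS.h12 i l k, hS.h23 i k l]

theorem e23 (hP : PayStmt) (hS : Adm S) (i j k l : Fin n) :
    (pt S i j k l).f23 = ph S k l i j := by
  have h := (hP (S i j k) (S i j l) (S i k l) (S j k l)).2.2.2.2.2.1
  unfold ph pt
  rw [h, hS.h23 k i l, hS.h12 i k l, hS.h23 k j l, hS.h12 j k l, hS.h12 i k j, hS.h23 i j k,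
    hS.h12 i l j, hS.h23 i j l]

theorem esw (hP : PayStmt) (hS : Adm S) (i j k l : Fin n) :
    ph S i j l k = ph S i j k l := by
  have h := (hP (S i j k) (S i j l) (S i k l) (S j k l)).2.2.2.2.2.2.1
  unfold ph pt
  rw [h, hS.h23 i k l, hS.h23 j k l]

theorem t0cd (hS : Adm S) (a b c d e : Fin n) : (cd S a b c d e).t0 = cd S b a c d e := by
  simp only [cd, C5.t0, hS.h12 a b]

theorem t1cd (hS : Adm S) (a b c d e : Fin n) : (cd S a b c d e).t1 = cd S a c b d e := by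
  simp only [cd, C5.t1, hS.h23 a b c, hS.h12 b c]

theorem t2cd (hS : Adm S) (a b c d e : Fin n) : (cd S a b c d e).t2 = cd S a b d c e := by
  simp only [cd, C5.t2, hS.h23 a c d, hS.h23 b c d, hS.h12 c d]

theorem t3cd (hS : Adm S) (a b c d e : Fin n) : (cd S a b c d e).t3 = cd S a b c e d := by
  simp only [cd, C5.t3, hS.h23 a d e, hS.h23 b d e, hS.h23 c d e]

theorem wok (hW : WalkStmt) (hS : Adm S) {a b c d e : Fin n} (h : Dis5 a b c d e) :
    WalkOK (cd S a b c d e) := hW _ (hS.h5 _ _ _ _ _ h)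

theorem l4 (a b c d e : Fin n) : (cd S a b c d e).leaf.g4 = gg S a b c d e := rfl

theorem l3 (hW : WalkStmt) (hS : Adm S) {a b c d e : Fin n} (h : Dis5 a b c d e) :
    (cd S a b c d e).leaf.g3 = gg S a b c e d := by
  have h1 := (wok hW hS h).2.2.2.1.2.2.2
  rw [t3cd hS] at h1
  exact h1

theorem l2 (hW : WalkStmt) (hS : Adm S) {a b c d e : Fin n} (h : Dis5 a b c d e) :
    (cd S a b c d e).leaf.g2 = gg S a b d e c := by
  have h1 := (wok hW hS h).2.2.2.1.2.2.1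
  rw [t2cd hS] at h1
  rw [h1]
  apply l3 hW hS
  obtain ⟨h1, h2, h3, h4, h5, h6, h7, h8, h9, h10⟩ := h
  exact ⟨h1, h3, h2, h4, h6, h5, h7, h8.symm, h10, h9⟩

theorem l1 (hW : WalkStmt) (hS : Adm S) {a b c d e : Fin n} (h : Dis5 a b c d e) :
    (cd S a b c d e).leaf.g1 = gg S a c d e b := by
  have h1 := (wok hW hS h).2.2.2.1.2.1
  rw [t1cd hS] at h1
  rw [h1]
  apply l2 hW hS
  obtain ⟨h1, h2, h3, h4, h5, h6, h7, h8, h9, h10⟩ := h
  exact ⟨h2, h1, h3, h4, h5.symm, h8, h9, h6, h7, h10⟩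

theorem l0 (hW : WalkStmt) (hS : Adm S) {a b c d e : Fin n} (h : Dis5 a b c d e) :
    (cd S a b c d e).leaf.g0 = gg S b c d e a := by
  have h1 := (wok hW hS h).2.2.2.1.1
  rw [t0cd hS] at h1
  rw [h1]
  apply l1 hW hS
  obtain ⟨h1, h2, h3, h4, h5, h6, h7, h8, h9, h10⟩ := h
  exact ⟨h1.symm, h5, h6, h7, h2, h3, h4, h8, h9, h10⟩

theorem D2e (p q a b c d : Fin n) : D2 S p q a b c d = dotF (ph S p q a b) (ph S p q c d) := rfl

theorem psie {a b c d u : Fin n} (h : Dis5 a b c d u) (k : ℕ) :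
    psi S k a b c d u = rr (gg S a b c d u) k := by
  unfold psi
  exact if_pos h

theorem D4e (hW : WalkStmt) (hS : Adm S) {a b c d u v : Fin n} (h : Dis5 a b c d u)
    (h' : Dis5 a b c d v) : D4 S a b c d u v = dotF (gg S a b c d u) (gg S a b c d v) := by
  unfold D4 dotF
  have h1 := (wok hW hS h).1.2.2.2.2.2
  have h2 := (wok hW hS h').1.2.2.2.2.2
  rw [l4] at h1 h2
  rw [h1, h2]
  simp only [psie h, psie h', zero_add]

theorem dot_comm (f g : F) : dotF f g = dotF g f := by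
  unfold dotF
  rw [add_comm (acZ f) (acZ g)]
  congr 1
  exact Finset.sum_congr rfl fun k _ => mul_comm _ _

end

theorem sum : SumStmt := by
  intro hP hW n S hS x0 x1 x2 x3 x4 x5 hD
  obtain ⟨h01, h02, h03, h04, h05, h12, h13, h14, h15, h23, h24, h25, h34, h35, h45⟩ := hD
  have D01234 : Dis5 x0 x1 x2 x3 x4 := ⟨h01, h02, h03, h04, h12, h13, h14, h23, h24, h34⟩
  have D01235 : Dis5 x0 x1 x2 x3 x5 := ⟨h01, h02, h03, h05, h12, h13, h15, h23, h25, h35⟩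
  have D01245 : Dis5 x0 x1 x2 x4 x5 := ⟨h01, h02, h04, h05, h12, h14, h15, h24, h25, h45⟩
  have D01345 : Dis5 x0 x1 x3 x4 x5 := ⟨h01, h03, h04, h05, h13, h14, h15, h34, h35, h45⟩
  have D02345 : Dis5 x0 x2 x3 x4 x5 := ⟨h02, h03, h04, h05, h23, h24, h25, h34, h35, h45⟩
  have D12345 : Dis5 x1 x2 x3 x4 x5 := ⟨h12, h13, h14, h15, h23, h24, h25, h34, h35, h45⟩
  have a0 := @e02 n S hP hS
  have a1 := @e12 n S hP hS
  have a2 := @e03 n S hP hS
  have a3 := @e13 n S hP hS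
  have a4 := @e23 n S hP hS

  have q0 := @D4e n S hW hS x2 x3 x4 x5 x0 x1 ⟨h23, h24, h25, h02.symm, h34, h35, h03.symm, h45, h04.symm, h05.symm⟩
    ⟨h23, h24, h25, h12.symm, h34, h35, h13.symm, h45, h14.symm, h15.symm⟩
  have q1 := @D4e n S hW hS x1 x3 x4 x5 x0 x2 ⟨h13, h14, h15, h01.symm, h34, h35, h03.symm, h45, h04.symm, h05.symm⟩
    ⟨h13, h14, h15, h12, h34, h35, h23.symm, h45, h24.symm, h25.symm⟩
  have q2 := @D4e n S hW hS x1 x2 x4 x5 x0 x3 ⟨h12, h14, h15, h01.symm, h24, h25, h02.symm, h45, h04.symm, h05.symm⟩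
    ⟨h12, h14, h15, h13, h24, h25, h23, h45, h34.symm, h35.symm⟩
  have q3 := @D4e n S hW hS x1 x2 x3 x5 x0 x4 ⟨h12, h13, h15, h01.symm, h23, h25, h02.symm, h35, h03.symm, h05.symm⟩
    ⟨h12, h13, h15, h14, h23, h25, h24, h35, h34, h45.symm⟩
  have q4 := @D4e n S hW hS x1 x2 x3 x4 x0 x5 ⟨h12, h13, h14, h01.symm, h23, h24, h02.symm, h34, h03.symm, h04.symm⟩
    ⟨h12, h13, h14, h15, h23, h24, h25, h34, h35, h45⟩
  have q5 := @D4e n S hW hS x0 x3 x4 x5 x1 x2 ⟨h03, h04, h05, h01, h34, h35, h13.symm, h45, h14.symm, h15.symm⟩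
    ⟨h03, h04, h05, h02, h34, h35, h23.symm, h45, h24.symm, h25.symm⟩
  have q6 := @D4e n S hW hS x0 x2 x4 x5 x1 x3 ⟨h02, h04, h05, h01, h24, h25, h12.symm, h45, h14.symm, h15.symm⟩
    ⟨h02, h04, h05, h03, h24, h25, h23, h45, h34.symm, h35.symm⟩
  have q7 := @D4e n S hW hS x0 x2 x3 x5 x1 x4 ⟨h02, h03, h05, h01, h23, h25, h12.symm, h35, h13.symm, h15.symm⟩
    ⟨h02, h03, h05, h04, h23, h25, h24, h35, h34, h45.symm⟩
  have q8 := @D4e n S hW hS x0 x2 x3 x4 x1 x5 ⟨h02, h03, h04, h01, h23, h24, h12.symm, h34, h13.symm, h14.symm⟩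
    ⟨h02, h03, h04, h05, h23, h24, h25, h34, h35, h45⟩
  have q9 := @D4e n S hW hS x0 x1 x4 x5 x2 x3 ⟨h01, h04, h05, h02, h14, h15, h12, h45, h24.symm, h25.symm⟩
    ⟨h01, h04, h05, h03, h14, h15, h13, h45, h34.symm, h35.symm⟩
  have q10 := @D4e n S hW hS x0 x1 x3 x5 x2 x4 ⟨h01, h03, h05, h02, h13, h15, h12, h35, h23.symm, h25.symm⟩
    ⟨h01, h03, h05, h04, h13, h15, h14, h35, h34, h45.symm⟩
  have q11 := @D4e n S hW hS x0 x1 x3 x4 x2 x5 ⟨h01, h03, h04, h02, h13, h14, h12, h34, h23.symm, h24.symm⟩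
    ⟨h01, h03, h04, h05, h13, h14, h15, h34, h35, h45⟩
  have q12 := @D4e n S hW hS x0 x1 x2 x5 x3 x4 ⟨h01, h02, h05, h03, h12, h15, h13, h25, h23, h35.symm⟩
    ⟨h01, h02, h05, h04, h12, h15, h14, h25, h24, h45.symm⟩
  have q13 := @D4e n S hW hS x0 x1 x2 x4 x3 x5 ⟨h01, h02, h04, h03, h12, h14, h13, h24, h23, h34.symm⟩
    ⟨h01, h02, h04, h05, h12, h14, h15, h24, h25, h45⟩
  have q14 := @D4e n S hW hS x0 x1 x2 x3 x4 x5 ⟨h01, h02, h03, h04, h12, h13, h14, h23, h24, h34⟩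
    ⟨h01, h02, h03, h05, h12, h13, h15, h23, h25, h35⟩
  have r0 := l0 hW hS D01234
  have r1 := l1 hW hS D01234
  have r2 := l2 hW hS D01234
  have r3 := l3 hW hS D01234
  have r4 := l0 hW hS D01235
  have r5 := l1 hW hS D01235
  have r6 := l2 hW hS D01235
  have r7 := l3 hW hS D01235
  have r8 := l0 hW hS D01245
  have r9 := l1 hW hS D01245
  have r10 := l2 hW hS D01245
  have r11 := l3 hW hS D01245
  have r12 := l0 hW hS D01345
  have r13 := l1 hW hS D01345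
  have r14 := l2 hW hS D01345
  have r15 := l3 hW hS D01345
  have r16 := l0 hW hS D02345
  have r17 := l1 hW hS D02345
  have r18 := l2 hW hS D02345
  have r19 := l3 hW hS D02345
  have r20 := l0 hW hS D12345
  have r21 := l1 hW hS D12345
  have r22 := l2 hW hS D12345
  have r23 := l3 hW hS D12345
  change z5 (Ctx.mk (pt S x1 x2 x3 x4) (pt S x0 x2 x3 x4) (pt S x0 x1 x3 x4) (pt S x0 x1 x2 x4) (pt S x0 x1 x2 x3)
    (cd S x0 x1 x2 x3 x4).leaf) (pt S x0 x1 x2 x5) (pt S x0 x1 x3 x5) (pt S x0 x2 x3 x5) (pt S x1 x2 x3 x5)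
    (cd S x0 x1 x2 x3 x5).leaf +
    z8 (Ctx.mk (pt S x1 x2 x3 x4) (pt S x0 x2 x3 x4) (pt S x0 x1 x3 x4) (pt S x0 x1 x2 x4) (pt S x0 x1 x2 x3)
    (cd S x0 x1 x2 x3 x4).leaf) (pt S x0 x1 x3 x5) (pt S x0 x1 x4 x5) (pt S x0 x2 x3 x5) (pt S x0 x2 x4 x5)
    (pt S x1 x2 x3 x5) (pt S x1 x2 x4 x5) (cd S x0 x1 x2 x4 x5).leaf (cd S x0 x1 x2 x3 x5).leaf +
    z9 (Ctx.mk (pt S x1 x2 x3 x4) (pt S x0 x2 x3 x4) (pt S x0 x1 x3 x4) (pt S x0 x1 x2 x4) (pt S x0 x1 x2 x3)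
    (cd S x0 x1 x2 x3 x4).leaf) (pt S x0 x1 x2 x5) (pt S x0 x1 x3 x5) (pt S x0 x1 x4 x5) (pt S x0 x2 x3 x5)
    (pt S x0 x2 x4 x5) (pt S x0 x3 x4 x5) (pt S x1 x2 x3 x5) (pt S x1 x2 x4 x5)
    (pt S x1 x3 x4 x5) (pt S x2 x3 x4 x5)
    (cd S x1 x2 x3 x4 x5).leaf (cd S x0 x2 x3 x4 x5).leaf
    (cd S x0 x1 x3 x4 x5).leaf (cd S x0 x1 x2 x4 x5).leaf (cd S x0 x1 x2 x3 x5).leaf = KT (D2 S) (D4 S) x0 x1 x2 x3 x4 x5
  simp only [z5, z8, z9, z012, z013, z023, z123, z014, z024, z124, z034, z134, z234, KT,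
    e01, a0, a1, a2, a3, a4, l4, r0, r1, r2, r3, r4, r5, r6, r7, r8, r9, r10, r11,
    r12, r13, r14, r15, r16, r17, r18, r19, r20, r21, r22, r23,
    D2e, q0, q1, q2, q3, q4, q5, q6, q7, q8, q9, q10, q11, q12, q13, q14]
  simp only [dot_comm]
  ring

end Pool.Agent.Helper17.Ac
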